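import Mathlib

/-!
# Countably compact dense subsets of `K^{ω₁}` when `ω₁ < 𝔭`

For MP_e377f6_gt.
-/

open Filter Topology Set Cardinal

namespace Pool.Agent.R634.CC

universe u

/-- `ω₁ < 𝔭`: every family of at most `ℵ₁` subsets of `ℕ`, all of whose finite subfamilies
have infinite intersection, has an infinite pseudo-intersection. -/
def OmegaOneLtP : Prop :=
  ∀ F : Set (Set ℕ), Cardinal.mk F ≤ Cardinal.aleph 1 →
    (∀ S : Finset (Set ℕ), (S : Set (Set ℕ)) ⊆ F → (⋂₀ (S : Set (Set ℕ))).Infinite) →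
    ∃ P : Set ℕ, P.Infinite ∧ ∀ B ∈ F, (P \ B).Finite

/-- If `ω₁ < 𝔭`, a point of character at most `ℵ₁` which is a cluster point of a sequence (in
the sense that every neighbourhood contains infinitely many terms) is the limit of a
subsequence. -/
lemma exists_subseq (hp : OmegaOneLtP) {X : Type u} [TopologicalSpace X] {J : Type}
    (hJ : #J ≤ ℵ₁) (V : J → Set X) (z : X) (hV : 𝓝 z = ⨅ j, 𝓟 (V j)) (s : ℕ → X)
    (hinf : ∀ U ∈ 𝓝 z, {n | s n ∈ U}.Infinite) :
    ∃ v : ℕ → ℕ, StrictMono v ∧ Tendsto (fun n => s (v n)) atTop (𝓝 z) := by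
  classical
  let B : J → Set ℕ := fun j => {n | s n ∈ V j}
  have hcard : #(range B) ≤ ℵ₁ := mk_range_le.trans hJ
  have hfip : ∀ S : Finset (Set ℕ), (S : Set (Set ℕ)) ⊆ range B →
      (⋂₀ (S : Set (Set ℕ))).Infinite := by
    intro S hS
    have hex : ∃ U ∈ 𝓝 z, {n | s n ∈ U} ⊆ ⋂₀ (S : Set (Set ℕ)) := by
      induction S using Finset.induction_on with
      | empty => exact ⟨Set.univ, univ_mem, by simp⟩
      | insert a S _ ih =>
        rw [Finset.coe_insert] at hS
        obtain ⟨U, hU, hsub⟩ := ih ((Set.subset_insert _ _).trans hS)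
        obtain ⟨j, hj⟩ := hS (Set.mem_insert _ _)
        have hVj : V j ∈ 𝓝 z := by
          rw [hV]
          exact mem_iInf_of_mem j (mem_principal_self _)
        refine ⟨U ∩ V j, inter_mem hU hVj, ?_⟩
        rw [Finset.coe_insert, sInter_insert]
        intro n hn
        refine ⟨?_, hsub hn.1⟩
        rw [← hj]
        exact hn.2
    obtain ⟨U, hU, hsub⟩ := hex
    exact (hinf U hU).mono hsub
  obtain ⟨P, hP, hPB⟩ := hp (range B) hcard hfip
  let v : ℕ → ℕ := Nat.nth (· ∈ P)
  have hv : StrictMono v := Nat.nth_strictMono hP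
  have hvP : ∀ n, v n ∈ P := fun n => Nat.nth_mem_of_infinite hP n
  refine ⟨v, hv, ?_⟩
  rw [hV, tendsto_iInf]
  intro j
  rw [tendsto_principal]
  have h1 := hPB (B j) ⟨j, rfl⟩
  have h2 : (v ⁻¹' (P \ B j)).Finite := h1.preimage hv.injective.injOn
  rw [← Nat.cofinite_eq_atTop]
  filter_upwards [h2.compl_mem_cofinite] with n hn
  by_contra hnB
  exact hn ⟨hvP n, hnB⟩

/-- The main theorem: if `ω₁ < 𝔭` and `K` is a compact second countable Hausdorff space with
more than one point, then every dense countably compact subset of `K^{ω₁}` contains an uncountable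
compact set. -/
theorem main (hp : OmegaOneLtP) {ι : Type} (hι : #ι = ℵ₁) (K : Type) [TopologicalSpace K]
    [CompactSpace K] [T2Space K] [SecondCountableTopology K] [Nontrivial K]
    (D : Set (ι → K)) (hD : Dense D) (hcc : IsCountablyCompact D) :
    ∃ C ⊆ D, IsCompact C ∧ ¬ C.Countable := by
  classical
  have hinf : Infinite ι := by
    rw [infinite_iff, hι]
    exact aleph0_lt_aleph_one.le
  let σ : ℕ ↪ ι := Infinite.natEmbedding ι
  let π : (ι → K) → (ℕ → K) := fun x n => x (σ n)
  have hπ : Continuous π := continuous_pi (fun n => continuous_apply (σ n))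
  have hπs : Function.Surjective π := by
    intro y
    refine ⟨Function.extend σ y (fun _ => Classical.arbitrary K), ?_⟩
    funext n
    exact σ.injective.extend_apply _ _ _
  have hπD : Dense (π '' D) := hπs.denseRange.dense_image hπ hD
  obtain ⟨S', hS'D, hS'c, hS'd⟩ := hπD.exists_countable_dense_subset
  -- lift `S'` to a sequence in `D`
  have hne : S'.Nonempty := hS'd.nonempty
  obtain ⟨e, he⟩ := hS'c.exists_eq_range hne
  have hlift : ∀ n, ∃ x ∈ D, π x = e n := by
    intro n
    have : e n ∈ π '' D := hS'D (he ▸ mem_range_self n)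
    exact this
  choose s hsD hsπ using hlift
  let C : Set (ι → K) := closure (range s)
  have hCc : IsCompact C := isClosed_closure.isCompact
  refine ⟨C, ?_, hCc, ?_⟩
  · intro z hz
    by_contra hzD
    have hzr : z ∉ range s := by
      rintro ⟨n, rfl⟩
      exact hzD (hsD n)
    -- a basis of size `ℵ₁`
    have hbasis : ∀ i : ι, ∃ W : ℕ → Set K, 𝓝 (z i) = ⨅ m, 𝓟 (W m) := by
      intro i
      obtain ⟨W, hW⟩ := (𝓝 (z i)).exists_antitone_basis
      refine ⟨W, ?_⟩
      have := hW.toHasBasis.eq_biInf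
      simpa using this
    choose W hW using hbasis
    let V : ι × ℕ → Set (ι → K) := fun p => {x | x p.1 ∈ W p.1 p.2}
    have hV : 𝓝 z = ⨅ p, 𝓟 (V p) := by
      rw [nhds_pi, Filter.pi, iInf_prod]
      refine iInf_congr (fun i => ?_)
      rw [hW i, comap_iInf]
      refine iInf_congr (fun m => ?_)
      rw [comap_principal]
      rfl
    have hJ : #(ι × ℕ) ≤ ℵ₁ := by
      rw [mk_prod, hι]
      simp
    have hhits : ∀ U ∈ 𝓝 z, {n | s n ∈ U}.Infinite := by
      intro U hU hfin
      have hTf : (s '' {n | s n ∈ U}).Finite := hfin.image s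
      have hTc : (s '' {n | s n ∈ U})ᶜ ∈ 𝓝 z := by
        refine hTf.isClosed.isOpen_compl.mem_nhds ?_
        rintro ⟨n, -, hn⟩
        exact hzr ⟨n, hn⟩
      obtain ⟨y, hy1, n, rfl⟩ := mem_closure_iff_nhds.1 hz _ (inter_mem hU hTc)
      exact hy1.2 ⟨n, hy1.1, rfl⟩
    obtain ⟨v, -, hvt⟩ := exists_subseq hp hJ V z hV s hhits
    obtain ⟨d, hdD, hd⟩ := hcc.seq_clusterPt (fun n => s (v n))
      (Eventually.of_forall (fun n => hsD (v n)))
    have hdz : d = z := by
      have h1 : ClusterPt d (map (fun n => s (v n)) atTop) := hd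
      have h2 : ClusterPt d (𝓝 z) := h1.mono hvt
      exact eq_of_nhds_neBot h2
    exact hzD (hdz ▸ hdD)
  · intro hCcount
    have himg : π '' C = Set.univ := by
      have h1 : IsClosed (π '' C) := (hCc.image hπ).isClosed
      have h2 : S' ⊆ π '' C := by
        rw [he]
        rintro _ ⟨n, rfl⟩
        exact ⟨s n, subset_closure ⟨n, rfl⟩, hsπ n⟩
      have h3 : closure S' ⊆ π '' C := closure_minimal h2 h1
      rw [hS'd.closure_eq] at h3
      exact univ_subset_iff.1 h3
    have hc : (Set.univ : Set (ℕ → K)).Countable := by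
      rw [← himg]
      exact hCcount.image π
    have hc' : Countable (ℕ → K) := Set.countable_univ_iff.1 hc
    obtain ⟨a, b, hab⟩ := exists_pair_ne K
    have hinj : Function.Injective (fun (f : ℕ → Bool) (n : ℕ) => if f n then a else b) := by
      intro f g hfg
      funext n
      have := congrFun hfg n
      simp only at this
      cases hf : f n <;> cases hg : g n <;> simp_all
    have h1 : #(ℕ → Bool) = 𝔠 := by simp
    have h2 : Countable (ℕ → Bool) := hinj.countable
    have h3 : #(ℕ → Bool) ≤ ℵ₀ := mk_le_aleph0_iff.2 h2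
    rw [h1] at h3
    exact absurd aleph0_lt_continuum (not_lt.2 h3)

end Pool.Agent.R634.CC
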